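import Pool.Agent.U485.SM.Stm2

set_option autoImplicit false

/-!
# Project HT-2, package DMR: twins in the intervals `(n + 4, 2 ^ (n + 4))`
-/

open Finset MeasureTheory ProbabilityTheory Filter Topology

namespace Pool.Agent.U588.HT

open Pool.Agent.U485.SM

theorem PP_two (y : ℕ) (hy : 2 ≤ y) : PP {0, 2} y = 2 * K2 y := by
  unfold PP K2
  have h1 : Pr y = insert 2 ((Finset.Icc 3 y).filter Nat.Prime) := by
    unfold Pr
    ext p
    simp only [mem_filter, mem_Icc, mem_insert]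
    constructor
    · rintro ⟨⟨h1, h2⟩, h3⟩
      rcases eq_or_ne p 2 with h | h
      · left; exact h
      · right
        have := h3.two_le
        exact ⟨⟨by omega, h2⟩, h3⟩
    · rintro (h | ⟨⟨h1, h2⟩, h3⟩)
      · subst h; exact ⟨⟨by norm_num, hy⟩, Nat.prime_two⟩
      · exact ⟨⟨by omega, h2⟩, h3⟩
  have hc : ({0, 2} : Finset ℕ).card = 2 := by decide
  have h2 : res {0, 2} 2 = 1 := by unfold res; decide
  rw [h1, prod_insert (by simp), hc, h2]
  congr 1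
  · norm_num
  · apply prod_congr rfl
    intro p hp
    simp only [mem_filter, mem_Icc] at hp
    have hres : res {0, 2} p = 2 := by
      unfold res
      rw [image_insert, image_singleton, Nat.zero_mod, Nat.mod_eq_of_lt (by omega : 2 < p)]
      decide
    rw [hres]
    have hp3 : (3 : ℝ) ≤ p := by exact_mod_cast hp.1.1
    have h3 : (p : ℝ) ≠ 0 := by linarith
    have h4 : (p : ℝ) - 1 ≠ 0 := by
      intro h
      linarith
    field_simp
    push_cast
    ring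

theorem PP_lim (C : ℝ) (h : Tendsto K2 atTop (𝓝 C)) : Tendsto (PP {0, 2}) atTop (𝓝 (2 * C)) := by
  refine (h.const_mul 2).congr' ?_
  filter_upwards [eventually_ge_atTop 2] with y hy
  exact (PP_two y hy).symm

/-- the count of the problem and the count on `(0, 2 ^ (n + 4)]` -/
theorem cnt_two (Q : Set ℕ) (n : ℕ) :
    ({p : ℕ | n + 4 < p ∧ p < 2 ^ (n + 4) ∧ p ∈ Q ∧ p + 2 ∈ Q}.ncard ≤ num Q {0, 2} 0 (2 ^ (n + 4))) ∧
      num Q {0, 2} 0 (2 ^ (n + 4)) ≤
        {p : ℕ | n + 4 < p ∧ p < 2 ^ (n + 4) ∧ p ∈ Q ∧ p + 2 ∈ Q}.ncard + (n + 5) := by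
  unfold num
  have hfB : {m : ℕ | 0 < m ∧ m ≤ 2 ^ (n + 4) ∧ ∀ h ∈ ({0, 2} : Finset ℕ), m + h ∈ Q}.Finite :=
    (Set.finite_Iic (2 ^ (n + 4))).subset (fun m hm => hm.2.1)
  have hfA : {p : ℕ | n + 4 < p ∧ p < 2 ^ (n + 4) ∧ p ∈ Q ∧ p + 2 ∈ Q}.Finite :=
    (Set.finite_Iic (2 ^ (n + 4))).subset (fun m hm => hm.2.1.le)
  constructor
  · apply Set.ncard_le_ncard _ hfB
    rintro p ⟨h1, h2, h3, h4⟩
    refine ⟨by omega, h2.le, ?_⟩
    intro h hh
    simp only [mem_insert, mem_singleton] at hh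
    rcases hh with hh | hh
    · subst hh; exact h3
    · subst hh; exact h4
  · have hsub : {m : ℕ | 0 < m ∧ m ≤ 2 ^ (n + 4) ∧ ∀ h ∈ ({0, 2} : Finset ℕ), m + h ∈ Q} ⊆
        {p : ℕ | n + 4 < p ∧ p < 2 ^ (n + 4) ∧ p ∈ Q ∧ p + 2 ∈ Q} ∪
          ((insert (2 ^ (n + 4)) (Finset.Icc 1 (n + 4)) : Finset ℕ) : Set ℕ) := by
      rintro m ⟨h1, h2, h3⟩
      by_cases h4 : m ≤ n + 4
      · right
        rw [mem_coe, mem_insert, mem_Icc]
        right
        omega
      · by_cases h5 : m = 2 ^ (n + 4)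
        · right
          rw [mem_coe, mem_insert]
          left
          exact h5
        · left
          refine ⟨by omega, lt_of_le_of_ne h2 h5, ?_, ?_⟩
          · exact h3 0 (by simp)
          · exact h3 2 (by simp)
    calc {m : ℕ | 0 < m ∧ m ≤ 2 ^ (n + 4) ∧ ∀ h ∈ ({0, 2} : Finset ℕ), m + h ∈ Q}.ncard
        ≤ ({p : ℕ | n + 4 < p ∧ p < 2 ^ (n + 4) ∧ p ∈ Q ∧ p + 2 ∈ Q} ∪
          ((insert (2 ^ (n + 4)) (Finset.Icc 1 (n + 4)) : Finset ℕ) : Set ℕ)).ncard :=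
          Set.ncard_le_ncard hsub (hfA.union (Finset.finite_toSet _))
      _ ≤ _ := Set.ncard_union_le _ _
      _ ≤ _ := by
          apply Nat.add_le_add_left
          rw [Set.ncard_coe_finset]
          refine (Finset.card_insert_le _ _).trans ?_
          rw [Nat.card_Icc]
          omega

theorem err_lim : Tendsto (fun n : ℕ => ((n : ℝ) + 5) * (n : ℝ) ^ 2 / 2 ^ (n + 4)) atTop (𝓝 0) := by
  have h1 : Tendsto (fun n : ℕ => (n : ℝ) ^ 3 / (2 : ℝ) ^ n) atTop (𝓝 0) :=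
    tendsto_pow_const_div_const_pow_of_one_lt 3 (by norm_num)
  have h2 : Tendsto (fun n : ℕ => (n : ℝ) ^ 2 / (2 : ℝ) ^ n) atTop (𝓝 0) :=
    tendsto_pow_const_div_const_pow_of_one_lt 2 (by norm_num)
  have h3 := (h1.const_mul (1 / 16)).add (h2.const_mul (5 / 16))
  simp only [mul_zero, add_zero] at h3
  refine h3.congr ?_
  intro n
  rw [pow_add]
  have : (2 : ℝ) ^ n ≠ 0 := by positivity
  field_simp
  ring

theorem t_DMR (h : S_FUL) : S_DMR := by
  intro Q hQ C hC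
  have hcard : ({0, 2} : Finset ℕ).card = 2 := by decide
  have hP := PP_lim C hC
  have h1 := h Q {0, 2} (2 * C) (fun d hd => hQ {0, 2} (2 * C) hP d (1 / 2) hd (by norm_num))
  rw [hcard] at h1
  have hpow : Tendsto (fun n : ℕ => 2 ^ (n + 4)) atTop atTop :=
    (tendsto_pow_atTop_atTop_of_one_lt (by norm_num : 1 < 2)).comp (tendsto_add_atTop_nat 4)
  have h2 := h1.comp hpow
  -- the quotient of the logarithms
  have hl2 : 0 < Real.log 2 := Real.log_pos (by norm_num)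
  have hq : Tendsto (fun n : ℕ => (n : ℝ) / (n + 4)) atTop (𝓝 1) := by
    have := tendsto_natCast_div_add_atTop (𝕜 := ℝ) 4
    exact this
  have h3 : Tendsto (fun n : ℕ => ((n : ℝ) / (n + 4)) ^ 2 / (Real.log 2) ^ 2) atTop
      (𝓝 (1 / (Real.log 2) ^ 2)) := by
    have := (hq.pow 2).div_const ((Real.log 2) ^ 2)
    simpa using this
  have h4 := h2.mul h3
  have h5 : 2 * C * (1 / (Real.log 2) ^ 2) = 2 * C / (Real.log 2) ^ 2 := by ring
  rw [h5] at h4
  have h6 : Tendsto (fun n : ℕ => (num Q {0, 2} 0 (2 ^ (n + 4)) : ℝ) * (n : ℝ) ^ 2 / 2 ^ (n + 4)) atTop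
      (𝓝 (2 * C / (Real.log 2) ^ 2)) := by
    refine h4.congr ?_
    intro n
    simp only [Function.comp]
    have hlog : Real.log (((2 ^ (n + 4) : ℕ)) : ℝ) = ((n : ℝ) + 4) * Real.log 2 := by
      push_cast
      rw [Real.log_pow]
      push_cast
      ring
    rw [hlog]
    push_cast
    have h7 : (n : ℝ) + 4 ≠ 0 := by positivity
    field_simp
  have h7 := h6.sub err_lim
  rw [sub_zero] at h7
  refine tendsto_of_tendsto_of_tendsto_of_le_of_le h7 h6 ?_ ?_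
  · intro n
    obtain ⟨-, h8⟩ := cnt_two Q n
    have h9 : (num Q {0, 2} 0 (2 ^ (n + 4)) : ℝ) ≤
        ({p : ℕ | n + 4 < p ∧ p < 2 ^ (n + 4) ∧ p ∈ Q ∧ p + 2 ∈ Q}.ncard : ℝ) + ((n : ℝ) + 5) := by
      exact_mod_cast h8
    simp only
    rw [← sub_div]
    apply div_le_div_of_nonneg_right _ (by positivity)
    nlinarith [sq_nonneg (n : ℝ)]
  · intro n
    obtain ⟨h8, -⟩ := cnt_two Q n
    have h9 : ({p : ℕ | n + 4 < p ∧ p < 2 ^ (n + 4) ∧ p ∈ Q ∧ p + 2 ∈ Q}.ncard : ℝ) ≤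
        (num Q {0, 2} 0 (2 ^ (n + 4)) : ℝ) := by exact_mod_cast h8
    simp only
    apply div_le_div_of_nonneg_right _ (by positivity)
    exact mul_le_mul_of_nonneg_right h9 (by positivity)

end Pool.Agent.U588.HT
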